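import Pool.Agent.Run7.h178.SL.Stm
import Pool.Agent.TH625.LOG.LI

/-!
# LI: local indicability from unique top letters
-/

set_option autoImplicit false

open Pool.Agent.R655.LI

namespace Run7.h781.SL

open Run7.h178.SL
open Pool.Agent.TH625.LOG (exists_finset_hom free_li surj_of_ne)
open FreeGroup (of)

section

variable {V : Type} (v₀ : V)

/-- the free group on the letters `(v, h)`, `v ≠ v₀` -/
abbrev NP : Type := FreeGroup ({v : V // v ≠ v₀} × ℤ)

/-- shift of the heights -/
def shEq (e : ℤ) : ({v : V // v ≠ v₀} × ℤ) ≃ ({v : V // v ≠ v₀} × ℤ) :=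
  Equiv.prodCongr (Equiv.refl _) (Equiv.addRight e)

theorem aut_ext {f g : MulAut (NP v₀)} (h : ∀ p, f (of p) = g (of p)) : f = g := by
  have h1 : f.toMonoidHom = g.toMonoidHom := by
    apply FreeGroup.ext_hom
    exact h
  ext1 y
  exact DFunLike.congr_fun h1 y

/-- the action of the integers by shifts -/
def act : Multiplicative ℤ →* MulAut (NP v₀) where
  toFun e := FreeGroup.freeGroupCongr (shEq v₀ e.toAdd)
  map_one' := by
    apply aut_ext
    intro p
    simp [shEq]
  map_mul' a b := by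
    apply aut_ext
    intro p
    simp only [MulAut.mul_apply, FreeGroup.freeGroupCongr_apply, FreeGroup.map.of, shEq,
      Equiv.prodCongr_apply, Prod.map, Equiv.coe_refl, id, Equiv.coe_addRight, toAdd_mul]
    congr 2
    ring

theorem act_of (e : Multiplicative ℤ) (p : {v : V // v ≠ v₀} × ℤ) :
    act v₀ e (of p) = of (p.1, p.2 + e.toAdd) := by
  change FreeGroup.freeGroupCongr (shEq v₀ e.toAdd) (of p) = _
  rw [FreeGroup.freeGroupCongr_apply, FreeGroup.map.of]
  rfl

/-- back to the words -/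
def bk : NP v₀ →* FreeGroup V :=
  FreeGroup.lift fun p => of v₀ ^ p.2 * of (p.1 : V) * (of v₀ ^ p.2)⁻¹

theorem bk_of (p : {v : V // v ≠ v₀} × ℤ) :
    bk v₀ (of p) = of v₀ ^ p.2 * of (p.1 : V) * (of v₀ ^ p.2)⁻¹ := FreeGroup.lift_apply_of

theorem bk_act (e : Multiplicative ℤ) (y : NP v₀) :
    bk v₀ (act v₀ e y) = of v₀ ^ e.toAdd * bk v₀ y * (of v₀ ^ e.toAdd)⁻¹ := by
  have h : (bk v₀).comp (act v₀ e).toMonoidHom =
      (MulAut.conj (of v₀ ^ e.toAdd)).toMonoidHom.comp (bk v₀) := by
    apply FreeGroup.ext_hom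
    intro p
    change bk v₀ (act v₀ e (of p)) = of v₀ ^ e.toAdd * bk v₀ (of p) * (of v₀ ^ e.toAdd)⁻¹
    rw [act_of, bk_of, bk_of]
    simp only
    rw [add_comm, zpow_add]
    group
  exact DFunLike.congr_fun h y

open Classical in
/-- rewriting -/
noncomputable def RW : FreeGroup V →* NP v₀ ⋊[act v₀] Multiplicative ℤ :=
  FreeGroup.lift fun v => if h : v = v₀ then SemidirectProduct.inr (Multiplicative.ofAdd 1)
    else SemidirectProduct.inl (of (⟨v, h⟩, 0))

theorem RW_v0 : RW v₀ (of v₀) = SemidirectProduct.inr (Multiplicative.ofAdd 1) := by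
  rw [RW, FreeGroup.lift_apply_of, dif_pos rfl]

theorem RW_of {v : V} (h : v ≠ v₀) : RW v₀ (of v) = SemidirectProduct.inl (of (⟨v, h⟩, 0)) := by
  rw [RW, FreeGroup.lift_apply_of, dif_neg h]

theorem RW_bk (y : NP v₀) : RW v₀ (bk v₀ y) = SemidirectProduct.inl y := by
  have h : (RW v₀).comp (bk v₀) = SemidirectProduct.inl := by
    apply FreeGroup.ext_hom
    intro p
    change RW v₀ (bk v₀ (of p)) = _
    rw [bk_of, map_mul, map_mul, map_inv, map_zpow, RW_v0, RW_of v₀ p.1.2, ← map_zpow]
    have h1 : (Multiplicative.ofAdd (1 : ℤ)) ^ p.2 = Multiplicative.ofAdd p.2 := by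
      rw [← ofAdd_zsmul, smul_eq_mul, mul_one]
    rw [h1, ← map_inv, ← SemidirectProduct.inl_aut, act_of]
    simp
  exact DFunLike.congr_fun h y

/-- from pairs to words -/
def BB : NP v₀ ⋊[act v₀] Multiplicative ℤ →* FreeGroup V :=
  SemidirectProduct.lift (bk v₀) (zpowersHom (FreeGroup V) (of v₀)) (by
    intro g
    ext1 p
    change bk v₀ (act v₀ g (of p)) = (of v₀ ^ g.toAdd) * bk v₀ (of p) * (of v₀ ^ g.toAdd)⁻¹
    exact bk_act v₀ g _)

theorem BB_RW (w : FreeGroup V) : BB v₀ (RW v₀ w) = w := by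
  have h : (BB v₀).comp (RW v₀) = MonoidHom.id _ := by
    apply FreeGroup.ext_hom
    intro v
    change BB v₀ (RW v₀ (of v)) = of v
    by_cases hv : v = v₀
    · subst hv
      rw [RW_v0, BB, SemidirectProduct.lift_inr]
      simp
    · rw [RW_of v₀ hv, BB, SemidirectProduct.lift_inl, bk_of]
      simp
  exact DFunLike.congr_fun h w

theorem word_eq {w : FreeGroup V} (h : (RW v₀ w).right = 1) : bk v₀ (RW v₀ w).left = w := by
  have h1 := BB_RW v₀ w
  have h2 : BB v₀ (RW v₀ w) = bk v₀ (RW v₀ w).left * of v₀ ^ ((RW v₀ w).right).toAdd := rfl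
  rw [h2, h] at h1
  simpa using h1

/-- the letters of height `< T` -/
def bel (T : ℤ) : Subgroup (NP v₀) := Subgroup.closure {x | ∃ v h, h < T ∧ x = of (v, h)}

theorem below_lift {T : ℤ} {u : NN V} (hu : u ∈ below v₀ T) :
    ∃ u' ∈ bel v₀ T, bk v₀ u' = back v₀ u := by
  induction hu using Subgroup.closure_induction with
  | mem x hx =>
    obtain ⟨v, h, hv, hh, rfl⟩ := hx
    refine ⟨of (⟨v, hv⟩, h), Subgroup.subset_closure ⟨⟨v, hv⟩, h, hh, rfl⟩, ?_⟩
    rw [bk_of, back, FreeGroup.lift_apply_of]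
  | one => exact ⟨1, Subgroup.one_mem _, by rw [map_one, map_one]⟩
  | mul x y _ _ hx hy =>
    obtain ⟨x', hx', ex⟩ := hx
    obtain ⟨y', hy', ey⟩ := hy
    exact ⟨x' * y', Subgroup.mul_mem _ hx' hy', by rw [map_mul, map_mul, ex, ey]⟩
  | inv x _ hx =>
    obtain ⟨x', hx', ex⟩ := hx
    exact ⟨x'⁻¹, Subgroup.inv_mem _ hx', by rw [map_inv, map_inv, ex]⟩

theorem act_bel {T : ℤ} {u : NP v₀} (hu : u ∈ bel v₀ T) (e : Multiplicative ℤ) :
    act v₀ e u ∈ bel v₀ (T + e.toAdd) := by
  induction hu using Subgroup.closure_induction with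
  | mem x hx =>
    obtain ⟨v, h, hh, rfl⟩ := hx
    rw [act_of]
    exact Subgroup.subset_closure ⟨v, h + e.toAdd, by omega, rfl⟩
  | one => rw [map_one]; exact Subgroup.one_mem _
  | mul x y _ _ hx hy => rw [map_mul]; exact Subgroup.mul_mem _ hx hy
  | inv x _ hx => rw [map_inv]; exact Subgroup.inv_mem _ hx

theorem agree {T : ℤ} {u : NP v₀} (hu : u ∈ bel v₀ T) {A : Type} [Group A] {Φ Ψ : NP v₀ →* A}
    (h : ∀ v k, k < T → Φ (of (v, k)) = Ψ (of (v, k))) : Φ u = Ψ u := by
  induction hu using Subgroup.closure_induction with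
  | mem x hx =>
    obtain ⟨v, k, hk, rfl⟩ := hx
    exact h v k hk
  | one => rw [map_one, map_one]
  | mul x y _ _ hx hy => rw [map_mul, map_mul, hx, hy]
  | inv x _ hx => rw [map_inv, map_inv, hx]

end

/-- the data of the relators -/
structure Dat {V R : Type} (v₀ : V) (β : R → {v : V // v ≠ v₀}) (r : R → FreeGroup V)
    (T : R → ℤ) (a b : R → NP v₀) : Prop where
  ha : ∀ i, a i ∈ bel v₀ (T i)
  hb : ∀ i, b i ∈ bel v₀ (T i)
  hr : ∀ i, bk v₀ (a i * (of (β i, T i))⁻¹ * b i) = r i

section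

variable {V R : Type} {v₀ : V} {β : R → {v : V // v ≠ v₀}} {r : R → FreeGroup V} {T : R → ℤ}
  {a b : R → NP v₀}

/-- the relator as an element of the free group on the letters with heights -/
def rel (β : R → {v : V // v ≠ v₀}) (T : R → ℤ) (a b : R → NP v₀) (i : R) : NP v₀ :=
  a i * (of (β i, T i))⁻¹ * b i

/-- elements of the normal closure of the relators use finitely many shifted relators -/
theorem cells (D : Dat v₀ β r T a b) (w : FreeGroup V)
    (hw : w ∈ Subgroup.normalClosure (Set.range r)) :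
    ∃ (S : Finset (R × Multiplicative ℤ)) (y : NP v₀), RW v₀ w = SemidirectProduct.inl y ∧
      ∀ Φ : NP v₀ →* NP v₀, (∀ d ∈ S, Φ (act v₀ d.2 (rel β T a b d.1)) = 1) → Φ y = 1 := by
  classical
  have hw' : w ∈ Subgroup.closure (Group.conjugatesOfSet (Set.range r)) := hw
  induction hw' using Subgroup.closure_induction with
  | mem x hx =>
    obtain ⟨r', ⟨i, rfl⟩, hr⟩ := Group.mem_conjugatesOfSet_iff.1 hx
    obtain ⟨g, rfl⟩ := isConj_iff.1 hr
    refine ⟨{(i, (RW v₀ g).right)},
      (RW v₀ g).left * act v₀ (RW v₀ g).right (rel β T a b i) * ((RW v₀ g).left)⁻¹, ?_, ?_⟩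
    · have h1 : RW v₀ (r i) = SemidirectProduct.inl (rel β T a b i) := by
        rw [← D.hr i, RW_bk]; rfl
      have h2 : RW v₀ g = SemidirectProduct.inl (RW v₀ g).left *
          SemidirectProduct.inr (RW v₀ g).right :=
        (SemidirectProduct.inl_left_mul_inr_right _).symm
      rw [map_mul, map_mul, map_inv, h1]
      conv_lhs => rw [h2]
      rw [map_mul, map_mul, map_inv, SemidirectProduct.inl_aut, map_inv]
      group
    · intro Φ hΦ
      have h1 := hΦ _ (Finset.mem_singleton_self _)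
      simp only at h1
      rw [map_mul, map_mul, h1, mul_one, ← map_mul, mul_inv_cancel, map_one]
  | one => exact ⟨∅, 1, by rw [map_one, map_one], fun Φ _ => map_one _⟩
  | mul x y hx hy ihx ihy =>
    obtain ⟨S, x', ex, hS⟩ := ihx hx
    obtain ⟨S', y', ey, hS'⟩ := ihy hy
    refine ⟨S ∪ S', x' * y', by rw [map_mul, map_mul, ex, ey], fun Φ hΦ => ?_⟩
    rw [map_mul, hS Φ fun d hd => hΦ d (Finset.mem_union_left _ hd),
      hS' Φ fun d hd => hΦ d (Finset.mem_union_right _ hd), one_mul]
  | inv x hx ihx =>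
    obtain ⟨S, x', ex, hS⟩ := ihx hx
    exact ⟨S, x'⁻¹, by rw [map_inv, map_inv, ex], fun Φ hΦ => by rw [map_inv, hS Φ hΦ, inv_one]⟩

/-- endomorphisms which kill finitely many shifted relators and are the identity modulo relators -/
theorem kill (D : Dat v₀ β r T a b) (hβ : Function.Injective β)
    (S : Finset (R × Multiplicative ℤ)) : ∃ Φ : NP v₀ →* NP v₀,
      (∀ d ∈ S, Φ (act v₀ d.2 (rel β T a b d.1)) = 1) ∧
      ∀ y, PresentedGroup.mk (Set.range r) (bk v₀ (Φ y)) =
        PresentedGroup.mk (Set.range r) (bk v₀ y) := by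
  classical
  induction S using Finset.induction_on_max_value (fun d : R × Multiplicative ℤ =>
    T d.1 + d.2.toAdd) with
  | empty => exact ⟨MonoidHom.id _, fun d hd => absurd hd (Finset.notMem_empty d), fun y => rfl⟩
  | insert d S hdS hmax ih =>
    obtain ⟨Φ, h1, h2⟩ := ih
    obtain ⟨i, e⟩ := d
    obtain ⟨H, hH⟩ : ∃ H : ℤ, H = T i + e.toAdd := ⟨_, rfl⟩
    let Ψ : NP v₀ →* NP v₀ := FreeGroup.lift fun p =>
      if p = (β i, H) then Φ (act v₀ e (b i * a i)) else Φ (of p)
    have hΨ1 : Ψ (of (β i, H)) = Φ (act v₀ e (b i * a i)) := by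
      change FreeGroup.lift _ (of (β i, H)) = _
      rw [FreeGroup.lift_apply_of, if_pos rfl]
    have hΨ2 : ∀ p, p ≠ (β i, H) → Ψ (of p) = Φ (of p) := by
      intro p hp
      change FreeGroup.lift _ (of p) = _
      rw [FreeGroup.lift_apply_of, if_neg hp]
    have hag : ∀ (T' : ℤ) (u : NP v₀), u ∈ bel v₀ T' → T' ≤ H → Ψ u = Φ u := by
      intro T' u hu hT
      refine agree v₀ hu fun v k hk => hΨ2 _ fun h => ?_
      have := congrArg Prod.snd h
      simp only at this
      omega
    have hrel : ∀ (i' : R) (e' : Multiplicative ℤ), act v₀ e' (rel β T a b i') =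
        act v₀ e' (a i') * (of (β i', T i' + e'.toAdd))⁻¹ * act v₀ e' (b i') := by
      intro i' e'
      rw [rel, map_mul, map_mul, map_inv, act_of]
    refine ⟨Ψ, fun d' hd' => ?_, fun y => ?_⟩
    · rcases Finset.mem_insert.1 hd' with rfl | hd'
      · simp only
        rw [hrel, map_mul, map_mul, map_inv, ← hH, hΨ1,
          hag _ _ (act_bel v₀ (D.ha i) e) hH.ge, hag _ _ (act_bel v₀ (D.hb i) e) hH.ge, map_mul,
          map_mul]
        group
      · have hne : d' ≠ (i, e) := fun h => hdS (h ▸ hd')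
        have hle : T d'.1 + d'.2.toAdd ≤ H := by
          rw [hH]; exact hmax d' hd'
        have h3 := h1 d' hd'
        rw [hrel, map_mul, map_mul, map_inv] at h3 ⊢
        rw [hag _ _ (act_bel v₀ (D.ha d'.1) d'.2) hle,
          hag _ _ (act_bel v₀ (D.hb d'.1) d'.2) hle, hΨ2, h3]
        intro h
        apply hne
        have h4 : d'.1 = i := hβ (congrArg Prod.fst h)
        have h5 : T d'.1 + d'.2.toAdd = H := congrArg Prod.snd h
        rw [hH, h4] at h5
        have h6 : d'.2.toAdd = e.toAdd := by omega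
        exact Prod.ext h4 (Multiplicative.toAdd.injective h6)
    · have h3 : ((PresentedGroup.mk (Set.range r)).comp (bk v₀)).comp Ψ =
          (PresentedGroup.mk (Set.range r)).comp (bk v₀) := by
        apply FreeGroup.ext_hom
        intro p
        change PresentedGroup.mk (Set.range r) (bk v₀ (Ψ (of p))) =
          PresentedGroup.mk (Set.range r) (bk v₀ (of p))
        by_cases hp : p = (β i, H)
        · rw [hp, hΨ1, h2, bk_act]
          have h4 : (of (β i, H) : NP v₀) = act v₀ e (of (β i, T i)) := by rw [act_of, hH]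
          rw [h4, bk_act]
          have h5 : PresentedGroup.mk (Set.range r) (r i) = 1 :=
            PresentedGroup.mk_eq_one_iff.2 (Subgroup.subset_normalClosure ⟨i, rfl⟩)
          rw [← D.hr i] at h5
          simp only [map_mul, map_inv] at h5
          have h6 : PresentedGroup.mk (Set.range r) (bk v₀ (b i * a i)) =
              PresentedGroup.mk (Set.range r) (bk v₀ (of (β i, T i))) := by
            rw [map_mul, map_mul]
            have h7 := mul_eq_one_iff_eq_inv.1 h5
            rw [mul_inv_eq_iff_eq_mul] at h7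
            rw [h7]
            group
          rw [map_mul, map_mul, h6, ← map_mul, ← map_mul]
        · rw [hΨ2 p hp, h2]
      exact DFunLike.congr_fun h3 y

end

theorem t_LI : S_LI := by
  intro V R _ β r v₀ hβ htop
  classical
  -- the data
  have hne : ∀ i, β i ≠ v₀ := fun i => (htop i).1
  have hdat : ∀ i, ∃ (T : ℤ) (a b : NP v₀), a ∈ bel v₀ T ∧ b ∈ bel v₀ T ∧
      bk v₀ (a * (of ((⟨β i, hne i⟩ : {v : V // v ≠ v₀}), T))⁻¹ * b) = r i := by
    intro i
    obtain ⟨-, T, u, v, hu, hv, hr⟩ := htop i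
    obtain ⟨u', hu', eu⟩ := below_lift v₀ hu
    obtain ⟨v', hv', ev⟩ := below_lift v₀ hv
    refine ⟨T, u', v', hu', hv', ?_⟩
    rw [hr, map_mul, map_mul, map_inv, eu, ev, map_mul, map_mul, map_inv, bk_of]
    congr 3
    rw [back, FreeGroup.lift_apply_of]
  choose T a b ha hb hr using hdat
  have D : Dat v₀ (fun i => (⟨β i, hne i⟩ : {v : V // v ≠ v₀})) r T a b := ⟨ha, hb, hr⟩
  have hβ' : Function.Injective (fun i => (⟨β i, hne i⟩ : {v : V // v ≠ v₀})) := fun i j h =>
    hβ (congrArg Subtype.val h)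
  -- the exponent sum of `v₀`
  let ρ : PresentedGroup (Set.range r) →* Multiplicative ℤ :=
    PresentedGroup.toGroup (f := fun v => (RW v₀ (of v)).right) (by
      rintro _ ⟨i, rfl⟩
      have h1 : FreeGroup.lift (fun v => (RW v₀ (of v)).right) =
          (SemidirectProduct.rightHom).comp (RW v₀) := by
        apply FreeGroup.ext_hom
        intro v
        rw [FreeGroup.lift_apply_of]
        rfl
      rw [h1]
      change (RW v₀ (r i)).right = 1
      rw [← hr i, RW_bk]
      rfl)
  have hρ : ∀ w, ρ (PresentedGroup.mk (Set.range r) w) = (RW v₀ w).right := by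
    intro w
    have h1 : ρ.comp (PresentedGroup.mk (Set.range r)) =
        (SemidirectProduct.rightHom).comp (RW v₀) := by
      apply FreeGroup.ext_hom
      intro v
      change ρ (PresentedGroup.of v) = _
      rw [PresentedGroup.toGroup.of]
      rfl
    exact DFunLike.congr_fun h1 w
  intro H hfg hH
  by_cases hk : H ≤ ρ.ker
  · by_contra hcon
    push Not at hcon
    have : Group.FG H := (Group.fg_iff_subgroup_fg H).2 hfg
    obtain ⟨α, hα, P, hP⟩ := Group.fg_iff_exists_freeGroup_hom_surjective_finite.1 this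
    have hlift : ∀ g : H, ∃ y : NP v₀, PresentedGroup.mk (Set.range r) (bk v₀ y) = g := by
      intro g
      obtain ⟨w, hw⟩ := PresentedGroup.mk_surjective (Set.range r) (g : PresentedGroup (Set.range r))
      refine ⟨(RW v₀ w).left, ?_⟩
      rw [word_eq, hw]
      rw [← hρ, hw]
      exact MonoidHom.mem_ker.1 (hk g.2)
    choose lft hlft using hlift
    let Q : FreeGroup α →* NP v₀ := FreeGroup.lift fun i => lft (P (of i))
    have hQ : ∀ x, PresentedGroup.mk (Set.range r) (bk v₀ (Q x)) = P x := by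
      intro x
      have h : ((PresentedGroup.mk (Set.range r)).comp (bk v₀)).comp Q = H.subtype.comp P := by
        apply FreeGroup.ext_hom
        intro i
        change PresentedGroup.mk (Set.range r) (bk v₀ (Q (of i))) = P (of i)
        have h2 : Q (of i) = lft (P (of i)) := FreeGroup.lift_apply_of
        rw [h2, hlft]
      exact DFunLike.congr_fun h x
    obtain ⟨T', hTK, hT⟩ := exists_finset_hom P.ker
    have hcells : ∀ x ∈ T', ∃ S : Finset (R × Multiplicative ℤ), ∀ Φ : NP v₀ →* NP v₀,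
        (∀ d ∈ S, Φ (act v₀ d.2 (rel (fun i => (⟨β i, hne i⟩ : {v : V // v ≠ v₀})) T a b d.1)) = 1) →
          Φ (Q x) = 1 := by
      intro x hx
      have h1 : PresentedGroup.mk (Set.range r) (bk v₀ (Q x)) = 1 := by
        rw [hQ, (MonoidHom.mem_ker).1 (hTK x hx)]
        rfl
      obtain ⟨S, y, hy, hS⟩ := cells D _ (PresentedGroup.mk_eq_one_iff.1 h1)
      rw [RW_bk] at hy
      refine ⟨S, fun Φ hΦ => ?_⟩
      rw [SemidirectProduct.inl_injective hy]
      exact hS Φ hΦ
    choose! S hS using hcells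
    obtain ⟨Φ, hΦ1, hΦ2⟩ := kill D hβ' (T'.biUnion S)
    let Θ : FreeGroup α →* NP v₀ := Φ.comp Q
    have hΘT : ∀ x ∈ T', Θ x = 1 := by
      intro x hx
      exact hS x hx Φ fun d hd => hΦ1 d (Finset.mem_biUnion.2 ⟨x, hx, hd⟩)
    have hJ : Θ.range = ⊥ := by
      by_contra hJ
      obtain ⟨ψ, ⟨_, y, rfl⟩, hy⟩ := free_li Θ.range hJ
      let φ : FreeGroup α →* Multiplicative ℤ := ψ.comp Θ.rangeRestrict
      have hφ : ∀ x ∈ P.ker, φ x = 1 := by
        apply hT φ
        intro x hx
        show ψ (Θ.rangeRestrict x) = 1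
        have h1 : Θ.rangeRestrict x = 1 := Subtype.ext (hΘT x hx)
        rw [h1, map_one]
      let f : H →* Multiplicative ℤ :=
        P.liftOfRightInverse (Function.surjInv hP) (Function.rightInverse_surjInv hP)
          ⟨φ, fun x hx => MonoidHom.mem_ker.2 (hφ x hx)⟩
      have hf : ∀ x, f (P x) = φ x := fun x =>
        P.liftOfRightInverse_comp_apply (Function.surjInv hP) (Function.rightInverse_surjInv hP) _ x
      obtain ⟨f', hf'⟩ := surj_of_ne f ⟨P y, by rw [hf]; exact hy⟩
      exact hcon f' hf'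
    apply hH
    rw [Subgroup.eq_bot_iff_forall]
    intro h hh
    obtain ⟨x, hx⟩ := hP ⟨h, hh⟩
    have h1 : Θ x = 1 := by
      have h2 : Θ x ∈ Θ.range := ⟨x, rfl⟩
      rw [hJ] at h2
      exact Subgroup.mem_bot.1 h2
    have h3 : PresentedGroup.mk (Set.range r) (bk v₀ (Q x)) = 1 := by
      rw [← hΦ2 (Q x)]
      have h4 : Φ (Q x) = 1 := h1
      rw [h4, map_one, map_one]
    rw [hQ, hx] at h3
    exact h3
  · apply surj_of_ne (ρ.comp H.subtype)
    by_contra h
    push Not at h
    exact hk fun x hx => MonoidHom.mem_ker.2 (h ⟨x, hx⟩)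

end Run7.h781.SL
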